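import Pool.Agent.Helper95.C2.Spec

set_option autoImplicit false

/-!
# C2 part AVD: a class of `h` for which all the values are prime to `U`
-/

open Polynomial

namespace Pool.Agent.Helper54.C2

open Pool.Agent.Helper95.C2

universe u

theorem avd_local {K : Type u} [Field K] [Fintype K] [CharP K 2] (n : ℕ) (A : Fin n → K[X])
    (b : Fin n → K) (G : K[X]) (hb : ∀ j, b j ≠ 0)
    (hA : ∀ Q : K[X], Irreducible Q → Fintype.card K ^ Q.natDegree ≤ n → ∀ j, Q ∣ A j)
    (Q : K[X]) (hQ : Irreducible Q) :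
    ∃ h : K[X], ∀ j, ¬ Q ∣ A j * (G + h ^ 8) + C (b j) := by
  classical
  have hconst : ∀ j, Q ∣ A j → ∀ h : K[X], ¬ Q ∣ A j * (G + h ^ 8) + C (b j) := by
    intro j hj h hdvd
    have h1 : Q ∣ C (b j) := (dvd_add_right (Dvd.dvd.mul_right hj _)).1 hdvd
    exact hQ.not_isUnit (isUnit_of_dvd_unit h1 (isUnit_C.2 (isUnit_iff_ne_zero.2 (hb j))))
  by_cases hcard : Fintype.card K ^ Q.natDegree ≤ n
  · exact ⟨0, fun j => hconst j (hA Q hQ hcard j) 0⟩
  · by_contra hcon
    push Not at hcon hcard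
    let e := degreeLTEquiv K Q.natDegree
    choose J hJ using fun c : Fin Q.natDegree → K => hcon ((e.symm c : degreeLT K Q.natDegree) : K[X])
    have hlt : Fintype.card (Fin n) < Fintype.card (Fin Q.natDegree → K) := by
      rw [Fintype.card_fin, Fintype.card_fun, Fintype.card_fin]
      exact hcard
    obtain ⟨c, c', hcc, hJJ⟩ := Fintype.exists_ne_map_eq_of_card_lt J hlt
    have h1 := hJ c
    have h2 := hJ c'
    rw [← hJJ] at h2
    have hnA : ¬ Q ∣ A (J c) := fun hh => hconst _ hh _ h1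
    have h3 := dvd_sub h1 h2
    set f : K[X] := ((e.symm c : degreeLT K Q.natDegree) : K[X]) with hf
    set g : K[X] := ((e.symm c' : degreeLT K Q.natDegree) : K[X]) with hg
    have h4 : Q ∣ A (J c) * (f ^ 8 - g ^ 8) := by
      have : A (J c) * (G + f ^ 8) + C (b (J c)) - (A (J c) * (G + g ^ 8) + C (b (J c))) =
          A (J c) * (f ^ 8 - g ^ 8) := by ring
      rwa [this] at h3
    have h5 : Q ∣ f ^ 8 - g ^ 8 := (hQ.prime.dvd_or_dvd h4).resolve_left hnA
    have h6 : f ^ 8 - g ^ 8 = (f - g) ^ 8 := by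
      have : (8 : ℕ) = 2 ^ 3 := by norm_num
      rw [this, sub_pow_char_pow]
    rw [h6] at h5
    have h7 : Q ∣ f - g := hQ.prime.dvd_of_dvd_pow h5
    have hfd : f.degree < Q.natDegree := mem_degreeLT.1 (e.symm c).2
    have hgd : g.degree < Q.natDegree := mem_degreeLT.1 (e.symm c').2
    have h8 : f - g = 0 := by
      apply eq_zero_of_dvd_of_degree_lt h7
      rw [degree_eq_natDegree hQ.ne_zero]
      exact lt_of_le_of_lt (degree_sub_le _ _) (max_lt hfd hgd)
    have h9 : f = g := sub_eq_zero.1 h8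
    apply hcc
    have h10 : e.symm c = e.symm c' := Subtype.ext h9
    exact e.symm.injective h10

theorem avd : S_AVD := by
  classical
  intro K _ _ _ n A b G U hb hU hA
  set s : Finset K[X] := (UniqueFactorizationMonoid.normalizedFactors U).toFinset with hs
  have hirr : ∀ Q ∈ s, Irreducible Q := fun Q hQ =>
    UniqueFactorizationMonoid.irreducible_of_normalized_factor Q (Multiset.mem_toFinset.1 hQ)
  have hnorm : ∀ Q ∈ s, normalize Q = Q := fun Q hQ =>
    UniqueFactorizationMonoid.normalize_normalized_factor Q (Multiset.mem_toFinset.1 hQ)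
  choose hh hhh using fun Q : s => avd_local n A b G hb hA Q.1 (hirr Q.1 Q.2)
  obtain ⟨h₀, h₀s⟩ := Ideal.exists_forall_sub_mem_ideal (ι := s)
    (I := fun Q => Ideal.span {Q.1})
    (by
      intro Q Q' hne
      show IsCoprime (Ideal.span {Q.1}) (Ideal.span {Q'.1})
      rw [Ideal.isCoprime_span_singleton_iff, (hirr Q.1 Q.2).coprime_iff_not_dvd]
      intro hdvd
      apply hne
      have hass := (hirr Q.1 Q.2).associated_of_dvd (hirr Q'.1 Q'.2) hdvd
      apply Subtype.ext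
      rw [← hnorm Q.1 Q.2, ← hnorm Q'.1 Q'.2]
      exact normalize_eq_normalize hass.dvd hass.symm.dvd)
    hh
  refine ⟨h₀, fun h hdvd j => ?_⟩
  apply isCoprime_of_irreducible_dvd (fun hcon => hU hcon.1)
  intro P hP hPU hPv
  obtain ⟨Q, hQ, hPQ⟩ := UniqueFactorizationMonoid.exists_mem_normalizedFactors_of_dvd hU hP hPU
  have hQs : Q ∈ s := Multiset.mem_toFinset.2 hQ
  have hQU : Q ∣ U := UniqueFactorizationMonoid.dvd_of_mem_normalizedFactors hQ
  have hQv : Q ∣ A j * (G + h ^ 8) + C (b j) := hPQ.symm.dvd.trans hPv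
  have h1 : Q ∣ h - h₀ := hQU.trans hdvd
  have h2 : Q ∣ h₀ - hh ⟨Q, hQs⟩ := Ideal.mem_span_singleton.1 (h₀s ⟨Q, hQs⟩)
  have h3 : Q ∣ h - hh ⟨Q, hQs⟩ := by
    have := dvd_add h1 h2
    rwa [sub_add_sub_cancel] at this
  have h4 : Q ∣ h ^ 8 - hh ⟨Q, hQs⟩ ^ 8 := h3.trans (sub_dvd_pow_sub_pow _ _ 8)
  apply hhh ⟨Q, hQs⟩ j
  have h5 : A j * (G + hh ⟨Q, hQs⟩ ^ 8) + C (b j) =
      A j * (G + h ^ 8) + C (b j) - A j * (h ^ 8 - hh ⟨Q, hQs⟩ ^ 8) := by ring
  rw [h5]
  exact dvd_sub hQv (Dvd.dvd.mul_left h4 _)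

end Pool.Agent.Helper54.C2
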