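import Pool.Agent.Helper95.C2.Spec

set_option autoImplicit false

/-!
# C2 part CRT: choice of `G` modulo `8`
-/

open Polynomial

namespace Pool.Agent.Helper54.C2

open Pool.Agent.Helper95.C2

universe u

theorem two_dvd_of_map_zero {S K : Type u} [CommRing S] [Field K] (π : S →+* K)
    (hker : ∀ x, π x = 0 → (2 : S) ∣ x) (f : S[X]) (hf : f.map π = 0) : (2 : S[X]) ∣ f := by
  have h2 : (2 : S[X]) = C 2 := by rw [map_ofNat]
  rw [h2, Polynomial.C_dvd_iff_dvd_coeff]
  intro i
  apply hker
  have := congrArg (fun g => g.coeff i) hf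
  simpa using this

/-- polynomials which are coprime modulo `2` are coprime -/
theorem coprime_lift {S K : Type u} [CommRing S] [Field K] (π : S →+* K)
    (hπ : Function.Surjective π) (h8 : (8 : S) = 0) (hker : ∀ x, π x = 0 → (2 : S) ∣ x)
    (f g : S[X]) (h : IsCoprime (f.map π) (g.map π)) : IsCoprime f g := by
  obtain ⟨a', b', hab⟩ := h
  obtain ⟨a, rfl⟩ := Polynomial.map_surjective π hπ a'
  obtain ⟨b, rfl⟩ := Polynomial.map_surjective π hπ b'
  obtain ⟨c, hc⟩ := two_dvd_of_map_zero π hker (a * f + b * g - 1) (by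
    rw [Polynomial.map_sub, Polynomial.map_add, Polynomial.map_mul, Polynomial.map_mul, hab,
      Polynomial.map_one, sub_self])
  have h8' : (8 : S[X]) = 0 := by
    have h1 : (8 : S[X]) = C 8 := by rw [map_ofNat]
    rw [h1, h8, C_0]
  have hnil : IsNilpotent (2 * c) := ⟨3, by
    have : (2 * c) ^ 3 = 8 * c ^ 3 := by ring
    rw [this, h8', zero_mul]⟩
  have hu : IsUnit (a * f + b * g) := by
    have h1 : a * f + b * g = 1 + 2 * c := by rw [← hc]; ring
    rw [h1]
    exact hnil.isUnit_one_add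
  obtain ⟨v, hv⟩ := hu.exists_right_inv
  refine ⟨v * a, v * b, ?_⟩
  calc v * a * f + v * b * g = (a * f + b * g) * v := by ring
    _ = 1 := hv

theorem crt : S_CRT := by
  intro S K _ _ π hπ h8 hker n A ϖ b hm hirr hne hA d
  haveI : Nontrivial S := π.domain_nontrivial
  have h2K : (2 : K) = 0 := by
    have h1 : (2 : K) ^ 3 = 0 := by
      have h2 : π 8 = 0 := by rw [h8, map_zero]
      rw [map_ofNat] at h2
      have h3 : (OfNat.ofNat 8 : K) = 2 ^ 3 := by norm_num
      rw [← h3]; exact h2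
    exact pow_eq_zero_iff (by norm_num) |>.1 h1
  have h2K' : (2 : K[X]) = 0 := by
    have h1 : (2 : K[X]) = C 2 := by rw [map_ofNat]
    rw [h1, h2K, C_0]
  have hdeg : ∀ j, 0 < (ϖ j).natDegree := by
    intro j
    have h1 := (hirr j).natDegree_pos
    rwa [(hm j).natDegree_map π] at h1
  have hm2 : ∀ j, (ϖ j + 2).Monic := by
    intro j
    apply (hm j).add_of_left
    have h1 : (2 : S[X]) = C 2 := by rw [map_ofNat]
    rw [h1]
    exact lt_of_le_of_lt degree_C_le (natDegree_pos_iff_degree_pos.1 (hdeg j))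
  set Q : Fin n → S[X] := fun j => (ϖ j * (ϖ j + 2)) ^ 2 with hQ
  have hQm : ∀ j, (Q j).Monic := fun j => ((hm j).mul (hm2 j)).pow 2
  have hQmap : ∀ j, (Q j).map π = ((ϖ j).map π) ^ 4 := by
    intro j
    simp only [hQ, Polynomial.map_pow, Polynomial.map_mul, Polynomial.map_add]
    have h1 : (2 : S[X]).map π = 0 := by
      rw [Polynomial.map_ofNat]; exact h2K'
    rw [h1]
    ring
  have hcQ : ∀ i j, i ≠ j → IsCoprime (Q i) (Q j) := by
    intro i j hij
    apply coprime_lift π hπ h8 hker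
    rw [hQmap, hQmap]
    apply IsCoprime.pow
    rw [(hirr i).coprime_iff_not_dvd]
    intro hdvd
    apply hne i j hij
    exact eq_of_monic_of_associated ((hm i).map π) ((hm j).map π)
      ((hirr i).associated_of_dvd (hirr j) hdvd)
  have hcA : ∀ j, IsCoprime (A j) (Q j) := by
    intro j
    apply coprime_lift π hπ h8 hker
    rw [hQmap]
    apply IsCoprime.pow_right
    apply IsCoprime.symm
    rw [(hirr j).coprime_iff_not_dvd]
    exact hA j
  choose uu vv huv using hcA
  obtain ⟨V, hV⟩ := Ideal.exists_forall_sub_mem_ideal (I := fun j => Ideal.span {Q j})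
    (by
      intro i j hij
      show IsCoprime (Ideal.span {Q i}) (Ideal.span {Q j})
      rw [Ideal.isCoprime_span_singleton_iff]
      exact hcQ i j hij)
    (fun j => (ϖ j) ^ 3 + 3 * (ϖ j) ^ 2 - uu j * C (b j))
  set D := (∏ j, Q j).natDegree with hD
  have hPm : (∏ j, Q j).Monic := monic_prod_of_monic _ _ (fun j _ => hQm j)
  set t := 2 * (V.natDegree + d + D) + 1 + D with ht
  have hXm : ((∏ j, Q j) * X ^ t).Monic := hPm.mul (monic_X_pow t)
  have hXd : ((∏ j, Q j) * X ^ t).natDegree = D + t := by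
    rw [hPm.natDegree_mul (monic_X_pow t), natDegree_X_pow]
  have hlt : V.degree < ((∏ j, Q j) * X ^ t).degree := by
    rw [degree_eq_natDegree hXm.ne_zero, hXd]
    refine lt_of_le_of_lt degree_le_natDegree ?_
    exact_mod_cast (by omega : V.natDegree < D + t)
  refine ⟨V + (∏ j, Q j) * X ^ t, hXm.add_of_right hlt, ?_, ?_, ?_⟩
  · rw [natDegree_add_eq_right_of_degree_lt hlt, hXd]
    omega
  · rw [natDegree_add_eq_right_of_degree_lt hlt, hXd]
    exact ⟨V.natDegree + d + D + D, by omega⟩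
  · intro j
    obtain ⟨y, hy⟩ := Ideal.mem_span_singleton.1 (hV j)
    have hQj : (ϖ j * (ϖ j + 2)) ^ 2 = Q j := rfl
    obtain ⟨x, hx⟩ : Q j ∣ ∏ i, Q i := Finset.dvd_prod_of_mem Q (Finset.mem_univ j)
    rw [hQj, hx]
    refine ⟨A j * y + vv j * C (b j) + A j * x * X ^ t, ?_⟩
    have h1 := huv j
    linear_combination (A j) * hy - C (b j) * h1

end Pool.Agent.Helper54.C2
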