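import Pool.Agent.Helper95.C2.Spec

set_option autoImplicit false

/-!
# C2 part MST: the structure of `M = A^2 G' - b A'` at a special prime
-/

open Polynomial

namespace Pool.Agent.Helper54.C2

open Pool.Agent.Helper95.C2

universe u

theorem unit_of_odd {S : Type u} [CommRing S] (h8 : (8 : S) = 0) {g : ℕ} (hg : Odd g) :
    IsUnit (g : S) := by
  obtain ⟨k, rfl⟩ := hg
  have hnil : IsNilpotent (2 * (k : S)) := ⟨3, by
    have : (2 * (k : S)) ^ 3 = 8 * (k : S) ^ 3 := by ring
    rw [this, h8, zero_mul]⟩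
  have h1 : ((2 * k + 1 : ℕ) : S) = 1 + 2 * (k : S) := by push_cast; ring
  rw [h1]
  exact hnil.isUnit_one_add

theorem mst : S_MST := by
  intro S K _ _ _ _ π h8 A G ϖ b hA hG hGo hϖ hirr hPA hdvd
  haveI : Nontrivial S := π.domain_nontrivial
  have h2K' : (2 : K[X]) = 0 := by
    have h1 : (2 : K[X]) = C 2 := by rw [map_ofNat]
    have h2 : (2 : K) = 0 := CharP.cast_eq_zero K 2
    rw [h1, h2, C_0]
  have hdeg : 0 < ϖ.natDegree := by
    have h1 := hirr.natDegree_pos
    rwa [hϖ.natDegree_map π] at h1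
  have hm2 : (ϖ + 2).Monic := by
    apply hϖ.add_of_left
    have h1 : (2 : S[X]) = C 2 := by rw [map_ofNat]
    rw [h1]
    exact lt_of_le_of_lt degree_C_le (natDegree_pos_iff_degree_pos.1 hdeg)
  obtain ⟨x, hx⟩ := hdvd
  set Q := ϖ * (ϖ + 2) with hQ
  have hQm : Q.Monic := hϖ.mul hm2
  obtain ⟨μ, hμ⟩ := unit_of_odd h8 hGo
  -- the polynomial `M`
  set Y := 3 * A ^ 2 * derivative ϖ + 2 * A * derivative Q * x + A * Q * derivative x -
    derivative A * Q * x with hY
  have hM : A ^ 2 * derivative G - C b * derivative A = Q * Y := by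
    have hL : A * G + C b = A * (ϖ ^ 3 + 3 * ϖ ^ 2) + Q ^ 2 * x := by
      rw [← hx]; ring
    have hL' := congrArg derivative hL
    simp only [derivative_add, derivative_mul, derivative_C, derivative_pow, add_zero] at hL'
    have hQ' : derivative Q = derivative ϖ * (ϖ + 2) + ϖ * derivative ϖ := by
      rw [hQ, derivative_mul, derivative_add]
      have : derivative (2 : S[X]) = 0 := by
        have h1 : (2 : S[X]) = C 2 := by rw [map_ofNat]
        rw [h1, derivative_C]
      rw [this, add_zero]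
    have h3 : derivative (3 : S[X]) = 0 := by
      have h1 : (3 : S[X]) = C 3 := by rw [map_ofNat]
      rw [h1, derivative_C]
    rw [h3] at hL'
    push_cast at hL'
    simp only [map_ofNat, Nat.cast_ofNat] at hL'
    rw [hY]
    have h4 : A ^ 2 * derivative G - C b * derivative A =
        A * (derivative A * G + A * derivative G) - derivative A * (A * G + C b) := by ring
    rw [h4, hL', hL, hQ', hQ]
    norm_num
    ring
  -- degrees and the leading coefficient
  set D := 2 * A.natDegree + (G.natDegree - 1) with hD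
  have hGpos : 1 ≤ G.natDegree := hGo.pos
  have hdG : (derivative G).natDegree ≤ G.natDegree - 1 := natDegree_derivative_le G
  have hA2d : (A ^ 2).natDegree ≤ 2 * A.natDegree := by
    rw [hA.natDegree_pow]
  have hA2c : (A ^ 2).coeff (2 * A.natDegree) = 1 := by
    have h1 := (hA.pow 2).coeff_natDegree
    rwa [hA.natDegree_pow] at h1
  have hcG : (derivative G).coeff (G.natDegree - 1) = (μ : S) := by
    rw [coeff_derivative, Nat.sub_add_cancel hGpos, hG.coeff_natDegree, one_mul, hμ]
    have h1 : ((G.natDegree - 1 : ℕ) : S) + 1 = ((G.natDegree - 1 + 1 : ℕ) : S) := by push_cast; rfl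
    rw [h1, Nat.sub_add_cancel hGpos]
  have hM'm : (C (↑μ⁻¹ : S) * (A ^ 2 * derivative G - C b * derivative A)).Monic := by
    apply monic_of_natDegree_le_of_coeff_eq_one D
    · refine (natDegree_C_mul_le _ _).trans ?_
      refine (natDegree_sub_le _ _).trans (max_le ?_ ?_)
      · refine natDegree_mul_le.trans ?_
        omega
      · refine (natDegree_C_mul_le _ _).trans ?_
        refine (natDegree_derivative_le A).trans ?_
        omega
    · rw [coeff_C_mul, coeff_sub, coeff_C_mul, hD, coeff_mul_add_eq_of_natDegree_le hA2d hdG, hA2c, hcG,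
        coeff_derivative]
      have h1 : A.coeff (2 * A.natDegree + (G.natDegree - 1) + 1) = 0 := by
        apply coeff_eq_zero_of_natDegree_lt
        omega
      rw [h1]
      simp
  have hMQ : C (↑μ⁻¹ : S) * (A ^ 2 * derivative G - C b * derivative A) =
      Q * (C (↑μ⁻¹ : S) * Y) := by
    rw [hM]; ring
  refine ⟨μ, C (↑μ⁻¹ : S) * Y, μ.isUnit, ?_, ?_, ?_, ?_, ?_⟩
  · rw [hMQ] at hM'm
    exact hQm.of_mul_monic_left hM'm
  · rw [hM]
    have h1 : C (μ : S) * C (↑μ⁻¹ : S) = 1 := by
      rw [← C_mul, Units.mul_inv, C_1]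
    calc Q * Y = 1 * (Q * Y) := by ring
      _ = (C (μ : S) * C (↑μ⁻¹ : S)) * (Q * Y) := by rw [h1]
      _ = C (μ : S) * (Q * (C (↑μ⁻¹ : S) * Y)) := by ring
  · refine ⟨A * ϖ * (ϖ + 3) + ϖ * (ϖ + 2) ^ 2 * x, ?_⟩
    linear_combination hx
  · refine ⟨A * (ϖ + 2) * (ϖ - 1) + ϖ ^ 2 * (ϖ + 2) * x, ?_⟩
    linear_combination hx
  · intro hP
    have hPirr := hirr
    have hprime : Prime (ϖ.map π) := hirr.prime
    have h2m : (2 : S[X]).map π = 0 := by
      rw [Polynomial.map_ofNat]; exact h2K'
    have h3m : (3 : S[X]).map π = 1 := by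
      rw [Polynomial.map_ofNat]
      have : (OfNat.ofNat 3 : K[X]) = 2 + 1 := by norm_num
      rw [this, h2K', zero_add]
    have hYmap : ϖ.map π ∣ Y.map π := by
      have h1 : Y.map π = C (π μ) * (C (↑μ⁻¹ : S) * Y).map π := by
        have h2 : C (μ : S) * (C (↑μ⁻¹ : S) * Y) = Y := by
          rw [← mul_assoc, ← C_mul, Units.mul_inv, C_1, one_mul]
        conv_lhs => rw [← h2]
        rw [Polynomial.map_mul, Polynomial.map_C]
      rw [h1]
      exact Dvd.dvd.mul_left hP _
    have hQmap : Q.map π = (ϖ.map π) ^ 2 := by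
      rw [hQ, Polynomial.map_mul, Polynomial.map_add, h2m]
      ring
    have hYm : Y.map π = (A.map π) ^ 2 * derivative (ϖ.map π) + ϖ.map π *
        (A.map π * ϖ.map π * (derivative x).map π - (derivative A).map π * ϖ.map π * x.map π) := by
      rw [hY]
      simp only [Polynomial.map_sub, Polynomial.map_add, Polynomial.map_mul, Polynomial.map_pow,
        hQmap, h2m, h3m, derivative_map]
      ring
    have h5 : ϖ.map π ∣ (A.map π) ^ 2 * derivative (ϖ.map π) := by
      rw [hYm] at hYmap
      exact (dvd_add_left (Dvd.intro _ rfl)).1 hYmap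
    rcases hprime.dvd_or_dvd h5 with h6 | h6
    · exact hPA (hprime.dvd_of_dvd_pow h6)
    · have hsep : (ϖ.map π).Separable := PerfectField.separable_of_irreducible hirr
      have hcop : IsCoprime (ϖ.map π) (derivative (ϖ.map π)) := hsep
      exact hirr.not_isUnit (hcop.isUnit_of_dvd' dvd_rfl h6)

end Pool.Agent.Helper54.C2
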